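import Pool.Agent.H16.HG.Defs

/-!
Parts RI and MON.
-/

set_option autoImplicit false

namespace HG

open Finset

/-- two families with the same multiset of values differ by a bijection of the indices -/
theorem h60_equiv {α β S : Type} [Fintype α] [Fintype β] (p : α → S) (q : β → S)
    (h : (Finset.univ : Finset α).val.map p = (Finset.univ : Finset β).val.map q) :
    ∃ e : β ≃ α, ∀ b, p (e b) = q b := by
  classical
  have hc : ∀ s : S, Nonempty ({b : β // q b = s} ≃ {a : α // p a = s}) := by
    intro s
    refine ⟨Fintype.equivOfCardEq ?_⟩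
    have h1 := congrArg (Multiset.count s) h
    rw [Multiset.count_map, Multiset.count_map] at h1
    rw [Fintype.card_subtype, Fintype.card_subtype, Finset.card_def, Finset.card_def,
      Finset.filter_val, Finset.filter_val]
    rw [Multiset.filter_congr (q := fun a => s = p a) (fun a _ => eq_comm),
      Multiset.filter_congr (q := fun a => s = q a) (fun a _ => eq_comm)]
    exact h1.symm
  refine ⟨(Equiv.sigmaFiberEquiv q).symm.trans
    ((Equiv.sigmaCongrRight fun s => (hc s).some).trans (Equiv.sigmaFiberEquiv p)), ?_⟩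
  intro b
  simp only [Equiv.trans_apply, Equiv.sigmaFiberEquiv, Equiv.coe_fn_symm_mk,
    Equiv.sigmaCongrRight_apply, Equiv.coe_fn_mk]
  exact ((hc (q b)).some ⟨b, rfl⟩).2

theorem h60_RealF_comp {t : ℕ} (N : Net t) {ι κ : Type} (q : ι → Sym2 (Fin t)) (f : κ → ι)
    (hf : Function.Injective f) (h : N.RealF q) : N.RealF fun x => q (f x) := by
  obtain ⟨L, h1, h2⟩ := h
  exact ⟨fun x => L (f x), fun x => h1 _, fun i j hij => h2 _ _ fun hh => hij (hf hh)⟩

theorem RI_proved : S_RI := by
  intro t N ι _ q
  constructor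
  · rintro ⟨n, p, hp, hr⟩
    obtain ⟨e, he⟩ := h60_equiv p q hp
    have := h60_RealF_comp N p e e.injective hr
    simpa only [he] using this
  · intro hr
    refine ⟨Fintype.card ι, fun i => q ((Fintype.equivFin ι).symm i), ?_,
      h60_RealF_comp N q _ (Fintype.equivFin ι).symm.injective hr⟩
    have h1 : (Finset.univ : Finset ι).val =
        (Finset.univ : Finset (Fin (Fintype.card ι))).val.map (Fintype.equivFin ι).symm := by
      have := Finset.map_univ_equiv (Fintype.equivFin ι).symm
      rw [← this]
      rfl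
    rw [h1, Multiset.map_map]
    rfl

theorem MON_proved : S_MON := by
  rintro t N M M' hle ⟨n, p, hp, hr⟩
  rw [Fin.univ_val_map] at hp
  subst hp
  obtain ⟨l', rfl⟩ := Quot.exists_rep M'
  have h1 : l'.Subperm (List.ofFn p) := hle
  obtain ⟨l'', h2, h3⟩ := h1
  rw [List.ofFn_eq_map, List.sublist_map_iff] at h3
  obtain ⟨l₁, h4, rfl⟩ := h3
  have hnd : l₁.Nodup := h4.nodup (List.nodup_finRange n)
  refine ⟨l₁.length, fun i => p (l₁.get i), ?_,
    h60_RealF_comp N p _ (List.nodup_iff_injective_get.mp hnd) hr⟩
  rw [Fin.univ_val_map]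
  have h5 : List.ofFn (fun i => p (l₁.get i)) = l₁.map p := by
    rw [List.ofFn_comp' , List.ofFn_get]
  rw [h5]
  exact Quot.sound h2

end HG
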