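import Pool.Agent.H60.HG.RI

/-!
Part WK: walks from realised Hamilton lists.
-/

set_option autoImplicit false

namespace HG

open Finset

section

variable {V : Type} [Finite V] (G : SimpleGraph V) {t : ℕ} (τ : Fin t → V)

/-- the type of resources -/
abbrev wkR : Type := {x : V // x ∉ Set.range τ} ⊕ {e : Sym2 (Fin t) // ∃ a b, e = s(a, b) ∧ G.Adj (τ a) (τ b)}

theorem wk_adj (x y : wkR G τ) (h : (netOf G τ).adj.Adj x y) :
    ∃ u v, x = .inl u ∧ y = .inl v ∧ G.Adj u.1 v.1 := by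
  have h2 := ((SimpleGraph.fromRel_adj _ _ _).mp h).2
  rcases x with u | u
  · rcases y with v | v
    · have h3 : G.Adj u.1 v.1 ∨ G.Adj v.1 u.1 := h2
      exact ⟨u, v, rfl, rfl, h3.elim id fun h => h.symm⟩
    · have h3 : False ∨ False := h2
      exact (h3.elim id id).elim
  · rcases y with v | v
    · have h3 : False ∨ False := h2
      exact (h3.elim id id).elim
    · have h3 : False ∨ False := h2
      exact (h3.elim id id).elim

theorem wk_tail (b : Fin t) : ∀ (l : List (wkR G τ)) (x : {x : V // x ∉ Set.range τ}),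
    List.IsChain (netOf G τ).adj.Adj (.inl x :: l : List (wkR G τ)) →
    (∃ y : wkR G τ, y ∈ (.inl x :: l : List (wkR G τ)).getLast? ∧ y ∈ (netOf G τ).Γ b) →
    (.inl x :: l : List (wkR G τ)).Nodup →
    ∃ w : G.Walk x.1 (τ b), w.IsPath ∧
      (∀ z ∈ w.support, z = τ b ∨ ∃ h, (.inl ⟨z, h⟩ : wkR G τ) ∈ (.inl x :: l : List (wkR G τ))) ∧
      (∀ e ∈ w.edges, ∃ z ∈ e, ∃ h, (.inl ⟨z, h⟩ : wkR G τ) ∈ (.inl x :: l : List (wkR G τ))) := by
  intro l
  induction l with
  | nil =>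
    intro x _ h2 _
    obtain ⟨y, hy, hy2⟩ := h2
    have hy3 : y = .inl x := by
      simpa using hy.symm
    subst hy3
    have hadj : G.Adj (τ b) x.1 := hy2
    refine ⟨SimpleGraph.Walk.cons hadj.symm SimpleGraph.Walk.nil, ?_, ?_, ?_⟩
    · rw [SimpleGraph.Walk.cons_isPath_iff]
      refine ⟨SimpleGraph.Walk.IsPath.nil, ?_⟩
      simp only [SimpleGraph.Walk.support_nil, List.mem_singleton]
      exact hadj.ne.symm
    · intro z hz
      simp only [SimpleGraph.Walk.support_cons, SimpleGraph.Walk.support_nil, List.mem_cons,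
        List.not_mem_nil, or_false] at hz
      rcases hz with rfl | rfl
      · exact Or.inr ⟨x.2, List.mem_cons_self⟩
      · exact Or.inl rfl
    · intro e he
      simp only [SimpleGraph.Walk.edges_cons, SimpleGraph.Walk.edges_nil, List.mem_cons,
        List.not_mem_nil, or_false] at he
      subst he
      exact ⟨x.1, Sym2.mem_mk_left _ _, x.2, List.mem_cons_self⟩
  | cons y l ih =>
    intro x h1 h2 h3
    have hxy := (List.isChain_cons_cons.mp h1).1
    have hch := (List.isChain_cons_cons.mp h1).2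
    obtain ⟨u, v, hu, rfl, hadj⟩ := wk_adj G τ _ _ hxy
    have hux : x = u := Sum.inl.inj hu
    subst hux
    obtain ⟨w, hw1, hw2, hw3⟩ := ih v hch (by
      obtain ⟨z, hz, hz2⟩ := h2
      exact ⟨z, by simpa using hz, hz2⟩) h3.of_cons
    refine ⟨SimpleGraph.Walk.cons hadj w, ?_, ?_, ?_⟩
    · rw [SimpleGraph.Walk.cons_isPath_iff]
      refine ⟨hw1, fun hx => ?_⟩
      rcases hw2 _ hx with h | ⟨h, h'⟩
      · exact x.2 ⟨b, h.symm⟩
      · exact (List.nodup_cons.mp h3).1 h'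
    · intro z hz
      rw [SimpleGraph.Walk.support_cons, List.mem_cons] at hz
      rcases hz with rfl | hz
      · exact Or.inr ⟨x.2, List.mem_cons_self⟩
      · rcases hw2 _ hz with h | ⟨h, h'⟩
        · exact Or.inl h
        · exact Or.inr ⟨h, List.mem_cons_of_mem _ h'⟩
    · intro e he
      rw [SimpleGraph.Walk.edges_cons, List.mem_cons] at he
      rcases he with rfl | he
      · exact ⟨x.1, Sym2.mem_mk_left _ _, x.2, List.mem_cons_self⟩
      · obtain ⟨z, hz, h, h'⟩ := hw3 e he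
        exact ⟨z, hz, h, List.mem_cons_of_mem _ h'⟩

/-- the walk of a segment -/
theorem wk_seg (hτ : Function.Injective τ) (a b : Fin t) (hab : a ≠ b) (l : List (wkR G τ))
    (hl : (netOf G τ).Seg a b l) :
    ∃ w : G.Walk (τ a) (τ b), w.IsPath ∧
      (∀ z ∈ w.support, z = τ a ∨ z = τ b ∨ ∃ h, (.inl ⟨z, h⟩ : wkR G τ) ∈ l) ∧
      (∀ e ∈ w.edges, (∃ z ∈ e, ∃ h, (.inl ⟨z, h⟩ : wkR G τ) ∈ l) ∨
        ∃ e' h, (.inr ⟨e', h⟩ : wkR G τ) ∈ l ∧ e = e'.map τ) := by
  obtain ⟨hch, hnd, ⟨x, hx1, hx2⟩, hlast⟩ := hl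
  match l, hch, hnd, hx1, hlast with
  | [], _, _, hx1, _ => exact absurd (show (none : Option (wkR G τ)) = some x from hx1) (by simp)
  | .inl y :: l, hch, hnd, hx1, hlast =>
    have hxy : x = .inl y := (Option.some.inj (show some (.inl y : wkR G τ) = some x from hx1)).symm
    subst hxy
    have hadj : G.Adj (τ a) y.1 := hx2
    obtain ⟨w, hw1, hw2, hw3⟩ := wk_tail G τ b l y hch hlast hnd
    refine ⟨SimpleGraph.Walk.cons hadj w, ?_, ?_, ?_⟩
    · rw [SimpleGraph.Walk.cons_isPath_iff]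
      refine ⟨hw1, fun hx => ?_⟩
      rcases hw2 _ hx with h | ⟨h, h'⟩
      · exact hab (hτ h)
      · exact h ⟨a, rfl⟩
    · intro z hz
      rw [SimpleGraph.Walk.support_cons, List.mem_cons] at hz
      rcases hz with rfl | hz
      · exact Or.inl rfl
      · exact Or.inr (hw2 z hz)
    · intro e he
      rw [SimpleGraph.Walk.edges_cons, List.mem_cons] at he
      rcases he with rfl | he
      · exact Or.inl ⟨y.1, Sym2.mem_mk_right _ _, y.2, List.mem_cons_self⟩
      · exact Or.inl (hw3 e he)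
  | .inr e :: l, hch, hnd, hx1, hlast =>
    have hxy : x = .inr e := (Option.some.inj (show some (.inr e : wkR G τ) = some x from hx1)).symm
    subst hxy
    have hl : l = [] := by
      match l, hch with
      | [], _ => rfl
      | z :: l, hch =>
        obtain ⟨u, v, hu, -, -⟩ := wk_adj G τ _ _ (List.isChain_cons_cons.mp hch).1
        exact absurd hu (by simp)
    subst hl
    obtain ⟨y, hy1, hy2⟩ := hlast
    have hye : y = .inr e := (Option.some.inj (show some (.inr e : wkR G τ) = some y from hy1)).symm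
    subst hye
    have ha : a ∈ e.1 := hx2
    have hb : b ∈ e.1 := hy2
    have he : e.1 = s(a, b) := (Sym2.mem_and_mem_iff hab).mp ⟨ha, hb⟩
    have hadj : G.Adj (τ a) (τ b) := by
      obtain ⟨a', b', h1, h2⟩ := e.2
      rw [he, Sym2.eq_iff] at h1
      rcases h1 with ⟨rfl, rfl⟩ | ⟨rfl, rfl⟩
      · exact h2
      · exact h2.symm
    refine ⟨SimpleGraph.Walk.cons hadj SimpleGraph.Walk.nil, ?_, ?_, ?_⟩
    · rw [SimpleGraph.Walk.cons_isPath_iff]
      refine ⟨SimpleGraph.Walk.IsPath.nil, ?_⟩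
      simp only [SimpleGraph.Walk.support_nil, List.mem_singleton]
      exact hadj.ne
    · intro z hz
      simp only [SimpleGraph.Walk.support_cons, SimpleGraph.Walk.support_nil, List.mem_cons,
        List.not_mem_nil, or_false] at hz
      rcases hz with rfl | rfl
      · exact Or.inl rfl
      · exact Or.inr (Or.inl rfl)
    · intro e' he'
      simp only [SimpleGraph.Walk.edges_cons, SimpleGraph.Walk.edges_nil, List.mem_cons,
        List.not_mem_nil, or_false] at he'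
      subst he'
      exact Or.inr ⟨e.1, e.2, List.mem_cons_self, by rw [he, Sym2.map_mk]⟩

/-- the walk of a list of terminals -/
theorem wk_list (hτ : Function.Injective τ) : ∀ (P : List (Fin t)) (p0 : Fin t)
    (L : ℕ → List (wkR G τ)), (p0 :: P).Nodup →
    (∀ j (hj : j + 1 < (p0 :: P).length),
      (netOf G τ).Seg ((p0 :: P)[j]) ((p0 :: P)[j + 1]) (L j)) →
    (∀ j j', j < P.length → j' < P.length → j ≠ j' → (L j).Disjoint (L j')) →
    ∃ c, ∃ w : G.Walk (τ p0) (τ c), w.IsPath ∧ (∀ a ∈ p0 :: P, τ a ∈ w.support) ∧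
      (∀ z ∈ w.support, (∃ a ∈ p0 :: P, z = τ a) ∨
        ∃ j, j < P.length ∧ ∃ h, (.inl ⟨z, h⟩ : wkR G τ) ∈ L j) ∧
      (∀ e ∈ w.edges, ∃ j, j < P.length ∧ ((∃ z ∈ e, ∃ h, (.inl ⟨z, h⟩ : wkR G τ) ∈ L j) ∨
        ∃ e' h, (.inr ⟨e', h⟩ : wkR G τ) ∈ L j ∧ e = e'.map τ)) := by
  intro P
  induction P with
  | nil =>
    intro p0 L _ _ _
    refine ⟨p0, SimpleGraph.Walk.nil, SimpleGraph.Walk.IsPath.nil, ?_, ?_, ?_⟩
    · intro a ha
      have : a = p0 := by simpa using ha
      subst this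
      simp
    · intro z hz
      have : z = τ p0 := by simpa using hz
      exact Or.inl ⟨p0, by simp, this⟩
    · intro e he
      simp at he
  | cons p1 P ih =>
    intro p0 L hnd hseg hdis
    obtain ⟨c, w', hw1, hw2, hw3, hw4⟩ := ih p1 (fun j => L (j + 1)) hnd.of_cons (by
      intro j hj
      have := hseg (j + 1) (by simpa using hj)
      simpa using this) (by
      intro j j' hj hj' hne
      exact hdis (j + 1) (j' + 1) (by simpa using hj) (by simpa using hj') (by omega))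
    have h01 : p0 ≠ p1 := by
      intro h
      exact (List.nodup_cons.mp hnd).1 (by rw [h]; exact List.mem_cons_self)
    have hs0 : (netOf G τ).Seg p0 p1 (L 0) := by
      have := hseg 0 (by simp)
      simpa using this
    obtain ⟨w0, hv1, hv2, hv3⟩ := wk_seg G τ hτ p0 p1 h01 (L 0) hs0
    have hnd' : w'.support.Nodup := hw1.support_nodup
    rw [← SimpleGraph.Walk.cons_tail_support] at hnd'
    refine ⟨c, w0.append w', ?_, ?_, ?_, ?_⟩
    · rw [SimpleGraph.Walk.isPath_def, SimpleGraph.Walk.support_append, List.nodup_append']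
      refine ⟨hv1.support_nodup, (List.nodup_cons.mp hnd').2, ?_⟩
      intro z hz hz'
      have hz'' : z ∈ w'.support := List.mem_of_mem_tail hz'
      rcases hv2 z hz with rfl | rfl | ⟨h, h'⟩
      · rcases hw3 _ hz'' with ⟨a, ha, hae⟩ | ⟨j, -, h, -⟩
        · have := hτ hae
          subst this
          exact (List.nodup_cons.mp hnd).1 ha
        · exact h ⟨p0, rfl⟩
      · exact (List.nodup_cons.mp hnd').1 hz'
      · rcases hw3 _ hz'' with ⟨a, ha, hae⟩ | ⟨j, hj, h2, h3⟩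
        · exact h ⟨a, hae.symm⟩
        · exact hdis 0 (j + 1) (by simp) (by simpa using hj) (by omega) h' h3
    · intro a ha
      rw [SimpleGraph.Walk.mem_support_append_iff]
      rcases List.mem_cons.mp ha with rfl | ha
      · exact Or.inl (SimpleGraph.Walk.start_mem_support _)
      · exact Or.inr (hw2 a ha)
    · intro z hz
      rw [SimpleGraph.Walk.mem_support_append_iff] at hz
      rcases hz with hz | hz
      · rcases hv2 z hz with rfl | rfl | ⟨h, h'⟩
        · exact Or.inl ⟨p0, by simp, rfl⟩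
        · exact Or.inl ⟨p1, by simp, rfl⟩
        · exact Or.inr ⟨0, by simp, h, h'⟩
      · rcases hw3 z hz with ⟨a, ha, hae⟩ | ⟨j, hj, h2, h3⟩
        · exact Or.inl ⟨a, List.mem_cons_of_mem _ ha, hae⟩
        · exact Or.inr ⟨j + 1, by simpa using hj, h2, h3⟩
    · intro e he
      rw [SimpleGraph.Walk.edges_append, List.mem_append] at he
      rcases he with he | he
      · exact ⟨0, by simp, hv3 e he⟩
      · obtain ⟨j, hj, h⟩ := hw4 e he
        exact ⟨j + 1, by simpa using hj, h⟩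

end

/-- reversing a segment -/
theorem wk_rev {t : ℕ} (N : Net t) (a b : Fin t) (l : List N.R) (h : N.Seg a b l) :
    N.Seg b a l.reverse := by
  obtain ⟨h1, h2, h3, h4⟩ := h
  refine ⟨?_, List.nodup_reverse.mpr h2, by simpa using h4, by simpa using h3⟩
  rw [List.isChain_reverse]
  exact h1.imp fun x y hxy => hxy.symm

theorem wk_orient {t : ℕ} (N : Net t) (a b : Fin t) (l : List N.R) (h : N.SegS s(a, b) l) :
    ∃ l', N.Seg a b l' ∧ ∀ r, r ∈ l' ↔ r ∈ l := by
  obtain ⟨a', b', h1, h2⟩ := h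
  rw [Sym2.eq_iff] at h1
  rcases h1 with ⟨rfl, rfl⟩ | ⟨rfl, rfl⟩
  · exact ⟨l, h2, fun r => Iff.rfl⟩
  · exact ⟨l.reverse, wk_rev N _ _ l h2, fun r => List.mem_reverse⟩

theorem wk_sum {ι S : Type} [Fintype ι] (q : ι → S) :
    (Finset.univ : Finset ι).val.map q = ∑ x, {q x} := by
  conv_lhs => rw [← Multiset.sum_map_singleton ((Finset.univ : Finset ι).val.map q)]
  rw [Multiset.map_map]
  rfl

theorem wk_pathEdges {t : ℕ} (l : List (Fin t)) :
    pathEdges l = ∑ j : Fin (l.length - 1),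
      {s(l[(j : ℕ)]'(by have := j.isLt; omega), l[(j : ℕ) + 1]'(by have := j.isLt; omega))} := by
  rw [← wk_sum (fun j : Fin (l.length - 1) =>
    s(l[(j : ℕ)]'(by have := j.isLt; omega), l[(j : ℕ) + 1]'(by have := j.isLt; omega))),
    Fin.univ_val_map]
  unfold pathEdges
  congr 1
  apply List.ext_getElem
  · simp
  · intro n h1 h2
    simp

theorem WK_proved : S_WK := by
  intro t k V _ G τ ht hτ P hP hreal
  have hsum : (Finset.univ : Finset (Σ i : Fin k, Fin ((P i).length - 1))).val.map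
      (fun x => s((P x.1)[(x.2 : ℕ)]'(by have := x.2.isLt; omega),
        (P x.1)[(x.2 : ℕ) + 1]'(by have := x.2.isLt; omega))) = ∑ i, pathEdges (P i) := by
    rw [wk_sum, Fintype.sum_sigma]
    exact Finset.sum_congr rfl fun i _ => (wk_pathEdges (P i)).symm
  rw [← hsum] at hreal
  obtain ⟨L, hL1, hL2⟩ := (RI_proved _ _ _ _).mp hreal
  choose L' hL3 hL4 using fun x => wk_orient (netOf G τ) _ _ (L x) (hL1 x)
  have hL5 : ∀ x y, x ≠ y → (L' x).Disjoint (L' y) := fun x y hxy r hr hr' =>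
    hL2 x y hxy ((hL4 x r).mp hr) ((hL4 y r).mp hr')
  -- the lists
  have hne : ∀ i, ∃ p0 Q, P i = p0 :: Q := by
    intro i
    match h : P i with
    | [] =>
      have := (hP i).2 ⟨0, by omega⟩
      rw [h] at this
      simp at this
    | p0 :: Q => exact ⟨p0, Q, rfl⟩
  choose p0 Q hQ using hne
  let LL : Fin k → ℕ → List (netOf G τ).R := fun i j =>
    if hj : j < (P i).length - 1 then L' ⟨i, ⟨j, hj⟩⟩ else []
  have hmemLL : ∀ i j r, r ∈ LL i j → ∃ hj : j < (P i).length - 1, r ∈ L' ⟨i, ⟨j, hj⟩⟩ := by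
    intro i j r hr
    simp only [LL] at hr
    split_ifs at hr with hj
    · exact ⟨hj, hr⟩
    · simp at hr
  have key : ∀ i, ∃ c, ∃ w : G.Walk (τ (p0 i)) (τ c), w.IsPath ∧
      (∀ a ∈ p0 i :: Q i, τ a ∈ w.support) ∧
      (∀ z ∈ w.support, (∃ a ∈ p0 i :: Q i, z = τ a) ∨
        ∃ j, j < (Q i).length ∧ ∃ h, (.inl ⟨z, h⟩ : wkR G τ) ∈ LL i j) ∧
      (∀ e ∈ w.edges, ∃ j, j < (Q i).length ∧ ((∃ z ∈ e, ∃ h, (.inl ⟨z, h⟩ : wkR G τ) ∈ LL i j) ∨
        ∃ e' h, (.inr ⟨e', h⟩ : wkR G τ) ∈ LL i j ∧ e = e'.map τ)) := by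
    intro i
    refine wk_list G τ hτ (Q i) (p0 i) (LL i) ?_ ?_ ?_
    · rw [← hQ i]
      exact (hP i).1
    · intro j hj
      have hj' : j < (P i).length - 1 := by
        rw [hQ i]
        omega
      have h1 := hL3 ⟨i, ⟨j, hj'⟩⟩
      simp only [LL, dif_pos hj']
      have e1 : (p0 i :: Q i)[j] = (P i)[j]'(by omega) := by
        congr 1
        exact (hQ i).symm
      have e2 : (p0 i :: Q i)[j + 1] = (P i)[j + 1]'(by omega) := by
        congr 1
        exact (hQ i).symm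
      rw [e1, e2]
      exact h1
    · intro j j' hj hj' hne r hr hr'
      obtain ⟨h1, h2⟩ := hmemLL i j r hr
      obtain ⟨h3, h4⟩ := hmemLL i j' r hr'
      refine hL5 ⟨i, ⟨j, h1⟩⟩ ⟨i, ⟨j', h3⟩⟩ ?_ h2 h4
      intro hh
      have := eq_of_heq (Sigma.mk.inj hh).2
      exact hne (congrArg Fin.val this)
  choose c w hw1 hw2 hw3 hw4 using key
  have hv : ∀ i j, i ≠ j → ∀ x, x ∈ (w i).support → x ∈ (w j).support → x ∈ Set.range τ := by
    intro i j hij x hx hx'
    rcases hw3 i x hx with ⟨a, -, rfl⟩ | ⟨n, -, h, hn⟩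
    · exact ⟨a, rfl⟩
    · rcases hw3 j x hx' with ⟨a, -, rfl⟩ | ⟨m, -, h', hm⟩
      · exact ⟨a, rfl⟩
      · exfalso
        obtain ⟨h1, h2⟩ := hmemLL i n _ hn
        obtain ⟨h3, h4⟩ := hmemLL j m _ hm
        refine hL5 ⟨i, ⟨n, h1⟩⟩ ⟨j, ⟨m, h3⟩⟩ ?_ h2 h4
        intro hh
        exact hij (Sigma.mk.inj hh).1
  refine ⟨fun i => τ (p0 i), fun i => τ (c i), w, ?_, ?_⟩
  · intro i
    refine ⟨hw1 i, ?_⟩
    rintro x ⟨a, rfl⟩
    exact hw2 i a (by rw [← hQ i]; exact (hP i).2 a)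
  · intro i j hij
    refine ⟨hv i j hij, ?_⟩
    intro e he he'
    obtain ⟨n, -, h1⟩ := hw4 i e he
    obtain ⟨m, -, h2⟩ := hw4 j e he'
    have hsupp : ∀ (i : Fin k) (z : V), e ∈ (w i).edges → z ∈ e → z ∈ (w i).support := by
      intro i z he hz
      exact SimpleGraph.Walk.mem_support_of_mem_edges he hz
    rcases h1 with ⟨z, hz, h, h'⟩ | ⟨e1, g1, h1, hh1⟩
    · exact h (hv i j hij z (hsupp i z he hz) (hsupp j z he' hz))
    · rcases h2 with ⟨z, hz, h, h'⟩ | ⟨e2, g2, h2, hh2⟩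
      · exact h (hv i j hij z (hsupp i z he hz) (hsupp j z he' hz))
      · have hee : e1 = e2 := Sym2.map.injective hτ (hh1.symm.trans hh2)
        subst hee
        obtain ⟨k1, k2⟩ := hmemLL i n _ h1
        obtain ⟨k3, k4⟩ := hmemLL j m _ h2
        refine hL5 ⟨i, ⟨n, k1⟩⟩ ⟨j, ⟨m, k3⟩⟩ ?_ k2 k4
        intro hh
        exact hij (Sigma.mk.inj hh).1

end HG
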